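import Mathlib

/-!
An extension of a simple `Z*` algebra by a `Z*` algebra is a `Z*` algebra.
-/

open Filter Topology ComplexOrder

namespace Pool.Agent.Results.MP_6f16c7_an.SimpleQuotient

/-- A C*-algebra `C` is a `Z*` algebra if every positive element `c` of `C` is a zero divisor:
`c * y = 0` or `y * c = 0` for some nonzero `y : C`. -/
def IsZStar (C : Type*) [NonUnitalCStarAlgebra C] [PartialOrder C] : Prop :=
  ∀ c : C, 0 ≤ c → ∃ y : C, y ≠ 0 ∧ (c * y = 0 ∨ y * c = 0)

/-- A C*-algebra `C` is simple if it is nonzero and its only closed two-sided ideals are `{0}`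
and `C`. -/
def IsSimpleAlg (C : Type*) [NonUnitalCStarAlgebra C] : Prop :=
  Nontrivial C ∧ ∀ I : Submodule ℂ C, IsClosed (I : Set C) →
    (∀ c : C, ∀ x ∈ I, c * x ∈ I ∧ x * c ∈ I) → I = ⊥ ∨ I = ⊤

section key

variable {A : Type*} [NonUnitalCStarAlgebra A] [PartialOrder A] [StarOrderedRing A]

lemma exists_left (hA : IsZStar A) {h : A} (hh : 0 ≤ h) : ∃ y : A, y ≠ 0 ∧ y * h = 0 := by
  obtain ⟨y, hy, h1 | h1⟩ := hA h hh
  · refine ⟨star y, star_ne_zero.2 hy, ?_⟩
    have h2 := congrArg star h1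
    rwa [star_mul, (IsSelfAdjoint.of_nonneg hh).star_eq, star_zero] at h2
  · exact ⟨y, hy, h1⟩

lemma exists_seq (hA : IsZStar A) (s : ℕ → A) : ∃ x : A, x ≠ 0 ∧ ∀ n, x * s n = 0 := by
  set c : ℕ → ℝ := fun n => (1 / 2) ^ n * (1 + ‖s n‖ ^ 2)⁻¹ with hc
  have hcpos : ∀ n, 0 < c n := fun n => by positivity
  have hle : ∀ n, ‖((c n : ℝ) : ℂ) • (s n * star (s n))‖ ≤ (1 / 2) ^ n := by
    intro n
    rw [norm_smul, Complex.norm_real, Real.norm_eq_abs, abs_of_pos (hcpos n),
      CStarRing.norm_self_mul_star]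
    have h1 : (1 + ‖s n‖ ^ 2)⁻¹ * (‖s n‖ * ‖s n‖) ≤ 1 := by
      rw [inv_mul_le_iff₀ (by positivity)]
      nlinarith
    calc c n * (‖s n‖ * ‖s n‖) = (1 / 2) ^ n * ((1 + ‖s n‖ ^ 2)⁻¹ * (‖s n‖ * ‖s n‖)) := by
          simp only [hc]; ring
      _ ≤ (1 / 2) ^ n * 1 := by gcongr
      _ = (1 / 2) ^ n := mul_one _
  have hsum : Summable (fun n => ((c n : ℝ) : ℂ) • (s n * star (s n))) :=
    Summable.of_norm_bounded (summable_geometric_two) hle
  have hnn : ∀ n, 0 ≤ ((c n : ℝ) : ℂ) • (s n * star (s n)) := by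
    intro n
    refine smul_nonneg ?_ (mul_star_self_nonneg _)
    exact_mod_cast (hcpos n).le
  obtain ⟨x, hx, hxh⟩ := exists_left hA (tsum_nonneg hnn)
  refine ⟨x, hx, fun n => ?_⟩
  have h1 := (hsum.hasSum.mul_left x).mul_right (star x)
  rw [hxh, zero_mul] at h1
  have h2 : ∀ n, x * (((c n : ℝ) : ℂ) • (s n * star (s n))) * star x =
      ((c n : ℝ) : ℂ) • ((x * s n) * star (x * s n)) := by
    intro n
    rw [mul_smul_comm, smul_mul_assoc, star_mul]
    simp only [mul_assoc]
  simp only [h2] at h1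
  have h3 : ∀ n, 0 ≤ ((c n : ℝ) : ℂ) • ((x * s n) * star (x * s n)) := by
    intro n
    refine smul_nonneg ?_ (mul_star_self_nonneg _)
    exact_mod_cast (hcpos n).le
  have h4 := le_hasSum h1 n (fun j _ => h3 j)
  have h5 := le_antisymm h4 (h3 n)
  have h6 : ((c n : ℝ) : ℂ) ≠ 0 := by exact_mod_cast (hcpos n).ne'
  rcases smul_eq_zero.1 h5 with h7 | h7
  · exact absurd h7 h6
  · exact CStarRing.mul_star_self_eq_zero_iff _ |>.1 h7

lemma exists_countable_right (hA : IsZStar A) {S : Set A} (hS : S.Countable) :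
    ∃ x : A, x ≠ 0 ∧ ∀ s ∈ S, s * x = 0 := by
  rcases S.eq_empty_or_nonempty with rfl | hne
  · obtain ⟨x, hx, -⟩ := exists_seq hA (fun _ => 0)
    exact ⟨x, hx, by simp⟩
  · obtain ⟨s, rfl⟩ := hS.exists_eq_range hne
    obtain ⟨x, hx, h⟩ := exists_seq hA (fun n => star (s n))
    refine ⟨star x, star_ne_zero.2 hx, ?_⟩
    rintro _ ⟨n, rfl⟩
    have h1 := congrArg star (h n)
    rwa [star_mul, star_star, star_zero] at h1

end key

/-- In a simple C*-algebra the span of `{z * c * w}` is dense, for every nonzero `c`. -/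
lemma dense_span {C : Type*} [NonUnitalCStarAlgebra C] (hC : IsSimpleAlg C) {c : C} (hc : c ≠ 0) :
    Dense (Submodule.span ℂ {t : C | ∃ z w : C, t = z * c * w} : Set C) := by
  set P := Submodule.span ℂ {t : C | ∃ z w : C, t = z * c * w} with hP
  have hl : ∀ d : C, ∀ t ∈ P, d * t ∈ P := by
    intro d t ht
    induction ht using Submodule.span_induction with
    | mem t ht =>
      obtain ⟨z, w, rfl⟩ := ht
      exact Submodule.subset_span ⟨d * z, w, by simp only [mul_assoc]⟩
    | zero => simp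
    | add u v _ _ hu hv => rw [mul_add]; exact P.add_mem hu hv
    | smul k u _ hu => rw [mul_smul_comm]; exact P.smul_mem k hu
  have hr : ∀ d : C, ∀ t ∈ P, t * d ∈ P := by
    intro d t ht
    induction ht using Submodule.span_induction with
    | mem t ht =>
      obtain ⟨z, w, rfl⟩ := ht
      exact Submodule.subset_span ⟨z, w * d, by simp only [mul_assoc]⟩
    | zero => simp
    | add u v _ _ hu hv => rw [add_mul]; exact P.add_mem hu hv
    | smul k u _ hu => rw [smul_mul_assoc]; exact P.smul_mem k hu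
  have hI : P.topologicalClosure = ⊥ ∨ P.topologicalClosure = ⊤ := by
    refine hC.2 P.topologicalClosure P.isClosed_topologicalClosure fun d x hx => ⟨?_, ?_⟩
    · have h1 : Set.MapsTo (fun t => d * t) (P : Set C) (P : Set C) := fun t ht => hl d t ht
      exact h1.closure (by fun_prop) hx
    · have h1 : Set.MapsTo (fun t => t * d) (P : Set C) (P : Set C) := fun t ht => hr d t ht
      exact h1.closure (by fun_prop) hx
  rcases hI with hI | hI
  · exfalso
    have h1 : star c * c * star c ∈ P := Submodule.subset_span ⟨star c, star c, rfl⟩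
    have h2 := P.le_topologicalClosure h1
    rw [hI, Submodule.mem_bot] at h2
    have h3 : (star c * c) * star (star c * c) = 0 := by
      rw [star_mul, star_star, ← mul_assoc, h2, zero_mul]
    have h4 := (CStarRing.mul_star_self_eq_zero_iff _).1 h3
    exact hc ((CStarRing.star_mul_self_eq_zero_iff _).1 h4)
  · exact Submodule.dense_iff_topologicalClosure_eq_top.2 hI

/-- **Extensions with simple `Z*` quotient.**  Let `0 → J → A → C → 0` be a short exact sequence
of C*-algebras in which `J` and `C` are `Z*` algebras and `C` is simple.  Then `A` is a `Z*`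
algebra. -/
theorem result {J A C : Type*}
    [NonUnitalCStarAlgebra J] [PartialOrder J] [StarOrderedRing J]
    [NonUnitalCStarAlgebra A] [PartialOrder A] [StarOrderedRing A]
    [NonUnitalCStarAlgebra C] [PartialOrder C] [StarOrderedRing C]
    (ι : J →⋆ₙₐ[ℂ] A) (π : A →⋆ₙₐ[ℂ] C)
    (hι : Function.Injective ι) (hπ : Function.Surjective π)
    (hexact : ∀ a : A, π a = 0 ↔ ∃ j : J, ι j = a)
    (hJ : IsZStar J) (hC : IsZStar C) (hCs : IsSimpleAlg C) : IsZStar A := by
  intro a ha
  by_contra hcon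
  push Not at hcon
  -- `a` is not a zero divisor
  have hnz : ∀ y : A, a * y = 0 → y = 0 := fun y hy => by
    by_contra hne
    exact (hcon y hne).1 hy
  -- an element `c` outside `J` with `a * c ∈ J`
  have hπa : 0 ≤ π a := by
    have := (map_nonneg π) ha
    exact this
  obtain ⟨y, hy, h1⟩ := exists_left hC hπa
  obtain ⟨c, hc⟩ := hπ (star y)
  have hc0 : π c ≠ 0 := by rw [hc]; exact star_ne_zero.2 hy
  have hac : π (a * c) = 0 := by
    have h2 := congrArg star h1
    rw [star_mul, star_zero, (IsSelfAdjoint.of_nonneg hπa).star_eq] at h2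
    rw [map_mul, hc, h2]
  set h : A := star (a * c) * (a * c) with hh
  have hkill : ∀ y : A, h * y = 0 → c * y = 0 := by
    intro y hy
    refine hnz _ ?_
    have h3 : star (a * c * y) * (a * c * y) = 0 := by
      rw [star_mul, mul_assoc, ← mul_assoc (star (a * c)), ← hh, hy, mul_zero]
    have h4 := (CStarRing.star_mul_self_eq_zero_iff _).1 h3
    rwa [mul_assoc] at h4
  have hπh : π h = 0 := by rw [hh, map_mul, hac, mul_zero]
  -- bounded lifting
  have hcont : Continuous π := map_continuous π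
  let πL : A →L[ℂ] C := ⟨(π : A →ₗ[ℂ] C), hcont⟩
  have hπL : ∀ x, πL x = π x := fun x => rfl
  obtain ⟨K, hK, hlift⟩ := πL.exists_preimage_norm_le hπ
  -- approximation of `a` by elements of the ideal generated by `c`, modulo `J`
  have happ : ∀ ε : ℝ, 0 < ε → ∃ (t : A) (j : J) (F : Set A), F.Countable ∧
      (∀ x : A, (∀ w ∈ F, c * (w * x) = 0) → t * x = 0) ∧ ‖a - t - ι j‖ ≤ K * ε := by
    intro ε hε
    have key : ∀ u ∈ Submodule.span ℂ {t : C | ∃ z w : C, t = z * π c * w},
        ∃ (t : A) (F : Set A), π t = u ∧ F.Countable ∧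
          (∀ x : A, (∀ w ∈ F, c * (w * x) = 0) → t * x = 0) := by
      intro u hu
      induction hu using Submodule.span_induction with
      | mem u hu =>
        obtain ⟨z', w', rfl⟩ := hu
        obtain ⟨z, rfl⟩ := hπ z'
        obtain ⟨w, rfl⟩ := hπ w'
        refine ⟨z * c * w, {w}, by simp, Set.countable_singleton w, fun x hx => ?_⟩
        rw [mul_assoc, mul_assoc, hx w rfl, mul_zero]
      | zero => exact ⟨0, ∅, map_zero _, Set.countable_empty, fun x _ => zero_mul _⟩
      | add u v _ _ hu hv =>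
        obtain ⟨t, F, h1, h2, h3⟩ := hu
        obtain ⟨t', F', h1', h2', h3'⟩ := hv
        refine ⟨t + t', F ∪ F', by rw [map_add, h1, h1'], h2.union h2', fun x hx => ?_⟩
        rw [add_mul, h3 x fun w hw => hx w (Or.inl hw), h3' x fun w hw => hx w (Or.inr hw),
          add_zero]
      | smul k u _ hu =>
        obtain ⟨t, F, h1, h2, h3⟩ := hu
        refine ⟨k • t, F, by rw [map_smul, h1], h2, fun x hx => ?_⟩
        rw [smul_mul_assoc, h3 x hx, smul_zero]
    obtain ⟨u, hu1, hu2⟩ := Metric.dense_iff.1 (dense_span hCs hc0) (π a) ε hε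
    obtain ⟨t, F, rfl, hF, hkt⟩ := key u hu2
    obtain ⟨x, hx1, hx2⟩ := hlift (π (a - t))
    have h5 : π (a - t - x) = 0 := by
      rw [map_sub π (a - t) x, ← hπL x, hx1, sub_self]
    obtain ⟨j, hj⟩ := (hexact _).1 h5
    refine ⟨t, j, F, hF, hkt, ?_⟩
    have h6 : a - t - ι j = x := by rw [hj]; abel
    rw [h6]
    refine hx2.trans ?_
    refine mul_le_mul_of_nonneg_left ?_ hK.le
    rw [map_sub, ← dist_eq_norm, dist_comm]
    exact (Metric.mem_ball.1 hu1).le
  choose t j F hF hkt hnorm using fun n : ℕ => happ (1 / ((n : ℝ) + 1)) Nat.one_div_pos_of_nat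
  -- elements of `J` to be annihilated
  have hmem : ∀ w : A, ∃ s : J, ι s = h * w := fun w =>
    (hexact _).1 (by rw [map_mul, hπh, zero_mul])
  choose s hs using hmem
  obtain ⟨x, hx, hx0⟩ := exists_countable_right hJ
    (((Set.countable_iUnion hF).image s).union (Set.countable_range j))
  have h7 : ∀ n, t n * ι x = 0 := by
    intro n
    refine hkt n _ fun w hw => hkill _ ?_
    rw [← mul_assoc, ← hs w, ← map_mul,
      hx0 _ (Or.inl ⟨w, Set.mem_iUnion.2 ⟨n, hw⟩, rfl⟩), map_zero]
  have h8 : ∀ n, ι (j n) * ι x = 0 := by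
    intro n
    rw [← map_mul, hx0 _ (Or.inr ⟨n, rfl⟩), map_zero]
  have h9 : ∀ n : ℕ, ‖a * ι x‖ ≤ K * (1 / ((n : ℝ) + 1)) * ‖ι x‖ := by
    intro n
    have h10 : a * ι x = (a - t n - ι (j n)) * ι x := by
      rw [sub_mul, sub_mul, h7, h8, sub_zero, sub_zero]
    rw [h10]
    exact (norm_mul_le _ _).trans (mul_le_mul_of_nonneg_right (hnorm n) (norm_nonneg _))
  have h11 : Tendsto (fun n : ℕ => K * (1 / ((n : ℝ) + 1)) * ‖ι x‖) atTop (𝓝 (K * 0 * ‖ι x‖)) :=
    (tendsto_one_div_add_atTop_nhds_zero_nat.const_mul K).mul_const _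
  rw [mul_zero, zero_mul] at h11
  have h12 : ‖a * ι x‖ ≤ 0 := ge_of_tendsto' h11 h9
  have h13 : a * ι x = 0 := norm_le_zero_iff.1 h12
  exact hx (hι ((hnz _ h13).trans (map_zero ι).symm))

end Pool.Agent.Results.MP_6f16c7_an.SimpleQuotient
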